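import Mathlib

set_option autoImplicit false

open Finset Function
open scoped ENNReal

namespace Pool.Agent.H.MP_cd69b0_an

variable {𝕜 : Type} [RCLike 𝕜] {α : Type} {E : α → Type} [∀ a, NormedAddCommGroup (E a)]
  [∀ a, NormedSpace 𝕜 (E a)] {A B C : Type} [NormedAddCommGroup A] [NormedSpace 𝕜 A]
  [NormedAddCommGroup B] [NormedSpace 𝕜 B] [NormedAddCommGroup C] [NormedSpace 𝕜 C]

/-- a uniformly bounded family of linear maps as a map into the sup-sum -/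
noncomputable def mkL (φ : ∀ a, A →ₗ[𝕜] E a) (c : ℝ) (hc : 0 ≤ c)
    (h : ∀ a x, ‖φ a x‖ ≤ c * ‖x‖) : A →L[𝕜] lp E ∞ :=
  LinearMap.mkContinuous
    { toFun := fun x => ⟨fun a => φ a x, memℓp_infty ⟨c * ‖x‖, by
        rintro _ ⟨a, rfl⟩; exact h a x⟩⟩
      map_add' := fun x y => by ext a; simp
      map_smul' := fun t x => by ext a; simp } c
    fun x => lp.norm_le_of_forall_le (by positivity) fun a => h a x

@[simp] lemma mkL_apply (φ : ∀ a, A →ₗ[𝕜] E a) (c : ℝ) (hc : 0 ≤ c)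
    (h : ∀ a x, ‖φ a x‖ ≤ c * ‖x‖) (x : A) (a : α) : mkL φ c hc h x a = φ a x := rfl

lemma ev_le (f : lp E ∞) (a : α) : ‖f a‖ ≤ ‖f‖ := lp.norm_apply_le_norm (by simp) f a

variable (𝕜 A B) in
/-- `A` is isomorphic to a complemented subspace of `B` -/
def Fac : Prop := ∃ (J : A →L[𝕜] B) (R : B →L[𝕜] A), ∀ a, R (J a) = a

lemma Fac.trans (h : Fac 𝕜 A B) (h' : Fac 𝕜 B C) : Fac 𝕜 A C := by
  obtain ⟨J, R, h⟩ := h
  obtain ⟨J', R', h'⟩ := h'
  exact ⟨J' ∘L J, R ∘L R', fun a => by simp [h, h']⟩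

lemma Fac.linf (h : Fac 𝕜 A B) : Fac 𝕜 (lp (fun _ : ℕ => A) ∞) (lp (fun _ : ℕ => B) ∞) := by
  obtain ⟨J, R, h⟩ := h
  exact ⟨lp.mapCLM ∞ (fun _ => J) (norm_nonneg J) fun _ => le_rfl,
    lp.mapCLM ∞ (fun _ => R) (norm_nonneg R) fun _ => le_rfl, fun a => lp.ext (funext fun n => h _)⟩

lemma swindle (h : Fac 𝕜 (lp (fun _ : ℕ => A) ∞) B) : Nonempty ((B × A) ≃L[𝕜] B) := by
  obtain ⟨J, R, h⟩ := h
  let s : lp (fun _ : ℕ => A) ∞ ≃L[𝕜] A × lp (fun _ : ℕ => A) ∞ :=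
    ContinuousLinearEquiv.equivOfInverse ((lp.evalCLM 𝕜 _ ∞ 0).prod
      (mkL (fun n => lp.evalₗ _ ∞ (n + 1)) 1 zero_le_one fun n x => by simpa using ev_le x (n + 1)))
      (mkL (fun n => Nat.casesOn n (LinearMap.fst 𝕜 _ _)
        fun n => lp.evalₗ _ ∞ n ∘ₗ LinearMap.snd 𝕜 _ _) 1 zero_le_one fun n x => by
          rw [one_mul]
          cases n with
          | zero => exact norm_fst_le x
          | succ n => exact (ev_le x.2 n).trans (norm_snd_le x))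
      (fun f => lp.ext (funext fun n => by cases n <;> rfl)) fun a => rfl
  let e := ContinuousLinearEquiv.equivOfRightInverse R J h
  refine ⟨(e.prodCongr (ContinuousLinearEquiv.refl 𝕜 A)).trans ?_⟩
  refine (ContinuousLinearEquiv.prodComm 𝕜 _ _).trans ?_
  refine (ContinuousLinearEquiv.prodAssoc 𝕜 _ _ _).symm.trans ?_
  exact (s.symm.prodCongr (ContinuousLinearEquiv.refl 𝕜 _)).trans e.symm

lemma pel (h1 : Fac 𝕜 A B) (h2 : Fac 𝕜 B A) (h3 : Fac 𝕜 (lp (fun _ : ℕ => B) ∞) B) :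
    Nonempty (A ≃L[𝕜] B) := by
  obtain ⟨e1⟩ := swindle (h1.linf.trans h3)
  obtain ⟨e2⟩ := swindle (h3.trans h2)
  exact ⟨e2.symm.trans ((ContinuousLinearEquiv.prodComm 𝕜 _ _).trans e1)⟩

variable {r : ℝ≥0∞} [Fact (1 ≤ r)]

lemma q_pos (hr : r ≠ ⊤) : 0 < r.toReal :=
  ENNReal.toReal_pos (zero_lt_one.trans_le Fact.out).ne' hr

lemma pi_le {P Q : Type} [Fintype P] [Fintype Q] (hr : r ≠ ⊤) (x : PiLp r fun _ : P => 𝕜)
    (y : PiLp r fun _ : Q => 𝕜) (e : P → Q) (he : Set.InjOn e {p | x p ≠ 0})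
    (h : ∀ p, x p ≠ 0 → x p = y (e p)) : ‖x‖ ≤ ‖y‖ := by
  classical
  have q := q_pos hr
  rw [PiLp.norm_eq_sum q, PiLp.norm_eq_sum q]
  refine Real.rpow_le_rpow (sum_nonneg fun _ _ => by positivity) ?_ (by positivity)
  rw [← sum_subset (subset_univ (univ.filter fun p => x p ≠ 0))
      fun p _ hp => by simp at hp; simp [hp, q.ne'],
    sum_congr rfl fun p hp => by rw [h p (mem_filter.1 hp).2],
    ← sum_image (f := fun j => ‖y j‖ ^ r.toReal) (s := univ.filter fun p => x p ≠ 0)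
      (he.mono fun p hp => (mem_filter.1 hp).2)]
  exact sum_le_sum_of_subset_of_nonneg (subset_univ _) fun _ _ _ => by positivity

variable (𝕜 r) in
/-- the sup-sum of the spaces of dimension `n + 1` -/
abbrev Y : Type := lp (fun n : ℕ => PiLp r fun _ : Fin (n + 1) => 𝕜) ∞

lemma fac_Y [Countable α] (hr : r ≠ ⊤) (P : α → Type) [∀ a, Fintype (P a)] :
    Fac 𝕜 (lp (fun a => PiLp r fun _ : P a => 𝕜) ∞) (Y 𝕜 r) := by
  classical
  obtain ⟨c, hc⟩ := exists_injective_nat α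
  obtain ⟨φ, hφ, e, he, lt⟩ : ∃ φ : α → ℕ, Injective φ ∧ ∃ e : (Σ a, P a) → ℕ × ℕ,
      Injective e ∧ ∀ i, (e i).1 = φ i.1 ∧ (e i).2 < φ i.1 + 1 := by
    have i1 : Injective fun a => Nat.pair (c a) (Fintype.card (P a)) :=
      fun a b h => hc (Nat.pair_eq_pair.1 h).1
    refine ⟨_, i1, fun i => (Nat.pair (c i.1) (Fintype.card (P i.1)), Fintype.equivFin _ i.2), ?_,
      fun i => ⟨rfl, ?_⟩⟩
    · rintro ⟨a, p⟩ ⟨b, p'⟩ h
      obtain rfl : a = b := i1 (Prod.mk.inj h).1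
      obtain rfl : p = p' := (Fintype.equivFin _).injective (Fin.ext (Prod.mk.inj h).2)
      rfl
    · exact (Fintype.equivFin _ i.2).2.trans_le ((Nat.right_le_pair _ _).trans (Nat.le_succ _))
  let j : ∀ n, lp (fun a => PiLp r fun _ : P a => 𝕜) ∞ →ₗ[𝕜] PiLp r fun _ : Fin (n + 1) => 𝕜 :=
    fun n =>
    { toFun := fun v => WithLp.toLp r fun k => extend e (fun i => v i.1 i.2) 0 (n, k)
      map_add' := fun v w => by
        ext k
        simp only [PiLp.add_apply, extend_def]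
        split_ifs with h <;> simp
      map_smul' := fun t v => by
        ext k
        simp only [PiLp.smul_apply, extend_def]
        split_ifs with h <;> simp }
  let ρ : ∀ a, Y 𝕜 r →ₗ[𝕜] PiLp r fun _ : P a => 𝕜 := fun a =>
    { toFun := fun y => WithLp.toLp r fun p => y (φ a) ⟨(e ⟨a, p⟩).2, (lt ⟨a, p⟩).2⟩
      map_add' := fun v w => rfl
      map_smul' := fun t v => rfl }
  refine ⟨mkL j 1 zero_le_one fun n v => ?_, mkL ρ 1 zero_le_one fun a y => ?_, fun v => ?_⟩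
  · rw [one_mul]
    by_cases h : ∃ a, φ a = n
    · obtain ⟨a, rfl⟩ := h
      have k : ∀ k : Fin (φ a + 1), ∃ p : Option (P a), j (φ a) v k ≠ 0 →
          ∃ p', p = some p' ∧ e ⟨a, p'⟩ = (φ a, k.1) := by
        intro k
        by_cases h : ∃ i, e i = (φ a, k.1)
        · obtain ⟨⟨b, p⟩, hi⟩ := h
          obtain rfl : b = a := hφ ((lt ⟨b, p⟩).1.symm.trans (congrArg Prod.fst hi))
          exact ⟨some p, fun _ => ⟨p, rfl, hi⟩⟩
        · exact ⟨none, fun h' => (h' (extend_apply' (f := e) (fun i => v i.1 i.2) 0 _ h)).elim⟩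
      by_cases h0 : j (φ a) v = 0
      · rw [h0, norm_zero]; exact norm_nonneg _
      obtain ⟨k0, hk0⟩ : ∃ k, j (φ a) v k ≠ 0 := by
        by_contra hc; push Not at hc; exact h0 (PiLp.ext hc)
      choose g hg using k
      obtain ⟨p0, -⟩ := hg k0 hk0
      refine (pi_le hr _ (v a) (fun k => (g k).getD p0) (fun k hk l hl h => ?_)
        fun k hk => ?_).trans (ev_le v a)
      · obtain ⟨p, h1, h2⟩ := hg k hk
        obtain ⟨p', h1', h2'⟩ := hg l hl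
        simp only [h1, h1', Option.getD_some] at h
        subst h
        exact Fin.ext (Prod.mk.inj (h2.symm.trans h2')).2
      · obtain ⟨p, h1, h2⟩ := hg k hk
        simp only [h1, Option.getD_some]
        change extend e (fun i => v i.1 i.2) 0 (φ a, k) = _
        rw [← h2, he.extend_apply]
    · have : j n v = 0 := PiLp.ext fun k => extend_apply' (f := e) (fun i => v i.1 i.2) 0 _ fun ⟨i, hi⟩ =>
        h ⟨i.1, (lt i).1.symm.trans (congrArg Prod.fst hi)⟩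
      rw [this, norm_zero]; exact norm_nonneg _
  · rw [one_mul]
    refine (pi_le hr _ (y (φ a)) (fun p => ⟨(e ⟨a, p⟩).2, (lt ⟨a, p⟩).2⟩) (fun p _ p' _ h => ?_)
      fun _ _ => rfl).trans (ev_le y _)
    exact sigma_mk_injective (he (Prod.ext ((lt ⟨a, p⟩).1.trans (lt ⟨a, p'⟩).1.symm) (Fin.mk.inj h)))
  · ext a p
    change extend e (fun i => v i.1 i.2) 0 (φ a, (e ⟨a, p⟩).2) = _
    rw [← (lt ⟨a, p⟩).1, he.extend_apply]

lemma fac_YY (hr : r ≠ ⊤) : Fac 𝕜 (lp (fun _ : ℕ => Y 𝕜 r) ∞) (Y 𝕜 r) := by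
  refine Fac.trans ?_ (fac_Y hr fun a : ℕ × ℕ => Fin (a.2 + 1))
  refine ⟨mkL (fun a => lp.evalₗ _ ∞ a.2 ∘ₗ lp.evalₗ _ ∞ a.1) 1 zero_le_one fun a x => ?_,
    mkL (fun k => (mkL (fun n => lp.evalₗ _ ∞ (k, n)) 1 zero_le_one fun n x => ?_).toLinearMap) 1
      zero_le_one fun k x => ?_, fun _ => rfl⟩
  · rw [one_mul]; exact (ev_le _ _).trans (ev_le x _)
  · rw [one_mul]; exact ev_le x _
  · rw [one_mul]; exact lp.norm_le_of_forall_le (norm_nonneg _) fun n => ev_le x _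

end Pool.Agent.H.MP_cd69b0_an
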