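import Mathlib
import Pool.Agent.H.MP_cd69b0_an.Sum

set_option autoImplicit false

open Finset Function MeasureTheory Filter Topology
open scoped ENNReal

namespace Pool.Agent.H.MP_cd69b0_an

variable {𝕜 : Type} [RCLike 𝕜] {Ω : Type} [m0 : MeasurableSpace Ω] {μ : Measure Ω}
  [IsProbabilityMeasure μ] {F : Type} [NormedAddCommGroup F] [NormedSpace 𝕜 F] [NormedSpace ℝ F]
  [SMulCommClass ℝ 𝕜 F]

variable (𝕜 μ) in
/-- integration over a set -/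
noncomputable def Il (p : ℝ≥0∞) [Fact (1 ≤ p)] (s : Set Ω) : Lp F p μ →ₗ[𝕜] F where
  toFun f := ∫ ω in s, f ω ∂μ
  map_add' f g := by
    rw [← integral_add ((Lp.memLp f).integrable Fact.out).integrableOn
      ((Lp.memLp g).integrable Fact.out).integrableOn]
    exact integral_congr_ae (ae_restrict_of_ae (Lp.coeFn_add f g))
  map_smul' c f := by
    rw [RingHom.id_apply, ← integral_smul]
    exact integral_congr_ae (ae_restrict_of_ae (Lp.coeFn_smul c f))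

lemma Il_apply (p : ℝ≥0∞) [Fact (1 ≤ p)] (s : Set Ω) (f : Lp F p μ) :
    Il 𝕜 μ p s f = ∫ ω in s, f ω ∂μ := rfl

lemma Il_zero {p : ℝ≥0∞} [Fact (1 ≤ p)] {s : Set Ω} (h : μ.real s = 0) (f : Lp F p μ) :
    Il 𝕜 μ p s f = 0 :=
  setIntegral_measure_zero _ ((measureReal_eq_zero_iff (measure_ne_top _ _)).1 h)

omit [NormedSpace ℝ F] in
lemma top_le (f : Lp F ∞ μ) {C : ℝ} (hC : 0 ≤ C) (h : ∀ᵐ ω ∂μ, ‖f ω‖ ≤ C) : ‖f‖ ≤ C := by
  simpa using Lp.norm_le_of_ae_bound hC h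

lemma avg_le (f : Lp F ∞ μ) (s : Set Ω) : ‖((μ.real s)⁻¹ : ℝ) • Il 𝕜 μ ∞ s f‖ ≤ ‖f‖ := by
  have h : ∀ᵐ ω ∂μ, ‖f ω‖ ≤ ‖f‖ := by
    filter_upwards [ae_le_eLpNormEssSup (f := f) (μ := μ)] with ω h
    rwa [← eLpNorm_exponent_top, ← Lp.enorm_def, enorm_le_iff_norm_le] at h
  have := norm_setIntegral_le_of_norm_le_const_ae (measure_lt_top μ s) (ae_restrict_of_ae h)
  rw [norm_smul, Real.norm_of_nonneg (by positivity), Il_apply]
  refine (mul_le_mul_of_nonneg_left this (by positivity)).trans ?_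
  rw [mul_comm ‖f‖, ← mul_assoc]
  exact mul_le_of_le_one_left (norm_nonneg _) (inv_mul_le_one_of_le₀ le_rfl (by positivity))

section part

variable {P : Type} [Fintype P] [MeasurableSpace P] [DiscreteMeasurableSpace P] {κ : Ω → P}

omit [IsProbabilityMeasure μ] in
lemma K1 (hκ : Measurable κ) {h : Ω → F} (hh : Integrable h μ) (S : Set P)
    [DecidablePred (· ∈ S)] :
    ∫ ω in κ ⁻¹' S, h ω ∂μ = ∑ p with p ∈ S, ∫ ω in κ ⁻¹' {p}, h ω ∂μ := by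
  rw [← integral_biUnion_finset _ (fun _ _ => hκ .of_discrete)
    (fun p _ q _ h => (Set.disjoint_singleton.2 h).preimage κ) fun _ _ => hh.integrableOn]
  congr 2
  ext ω; simp

omit [NormedSpace ℝ F] in
lemma step_mem (hκ : Measurable κ) (p : ℝ≥0∞) (a : P → F) : MemLp (fun ω => a (κ ω)) p μ :=
  (MemLp.of_discrete (μ := μ.map κ) (f := a)).comp_of_map hκ.aemeasurable

omit [Fintype P] [IsProbabilityMeasure μ] in
lemma K2 [CompleteSpace F] (hκ : Measurable κ) (a : P → F) (p : P) :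
    ∫ ω in κ ⁻¹' {p}, a (κ ω) ∂μ = μ.real (κ ⁻¹' {p}) • a p := by
  rw [← setIntegral_const]
  exact setIntegral_congr_fun (hκ .of_discrete) fun ω hω => congrArg a hω

lemma K3 [CompleteSpace F] (hκ : Measurable κ) (m : P → F)
    (h0 : ∀ p, μ.real (κ ⁻¹' {p}) = 0 → m p = 0) (S : Set P) [DecidablePred (· ∈ S)] :
    ∫ ω in κ ⁻¹' S, (μ.real (κ ⁻¹' {κ ω}))⁻¹ • m (κ ω) ∂μ = ∑ p with p ∈ S, m p := by
  rw [K1 hκ (memLp_one_iff_integrable.1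
    (step_mem hκ 1 fun p => (μ.real (κ ⁻¹' {p}))⁻¹ • m p))]
  refine sum_congr rfl fun p _ => ?_
  rw [K2 hκ fun p => (μ.real (κ ⁻¹' {p}))⁻¹ • m p]
  by_cases h : μ.real (κ ⁻¹' {p}) = 0
  · simp [h0 p h]
  · rw [smul_inv_smul₀ h]

variable (𝕜 μ) in
/-- step functions -/
noncomputable def St (hκ : Measurable κ) (p : ℝ≥0∞) : (P → F) →ₗ[𝕜] Lp F p μ where
  toFun a := (step_mem hκ p a).toLp
  map_add' a b := MemLp.toLp_add (step_mem hκ p a) (step_mem hκ p b)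
  map_smul' c a := MemLp.toLp_const_smul c (step_mem hκ p a)

omit [NormedSpace ℝ F] [SMulCommClass ℝ 𝕜 F] in
lemma St_ae (hκ : Measurable κ) (p : ℝ≥0∞) (a : P → F) :
    St 𝕜 μ hκ p a =ᵐ[μ] fun ω => a (κ ω) := (step_mem hκ p a).coeFn_toLp

lemma Il_St [CompleteSpace F] (hκ : Measurable κ) (p : ℝ≥0∞) [Fact (1 ≤ p)] (a : P → F) (b : P) :
    Il 𝕜 μ p (κ ⁻¹' {b}) (St 𝕜 μ hκ p a) = μ.real (κ ⁻¹' {b}) • a b := by
  rw [← K2 hκ]
  exact integral_congr_ae (ae_restrict_of_ae (St_ae hκ p a))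

lemma Il_sum (hκ : Measurable κ) (p : ℝ≥0∞) [Fact (1 ≤ p)] (f : Lp F p μ) (S : Set P)
    [DecidablePred (· ∈ S)] :
    Il 𝕜 μ p (κ ⁻¹' S) f = ∑ b with b ∈ S, Il 𝕜 μ p (κ ⁻¹' {b}) f :=
  K1 hκ ((Lp.memLp f).integrable Fact.out) S

variable {r : ℝ≥0∞} [Fact (1 ≤ r)]

variable (μ r) in
/-- normalised step functions -/
noncomputable def SS (hκ : Measurable κ) : PiLp r (fun _ : P => 𝕜) →ₗ[𝕜] Lp 𝕜 r μ :=
  St 𝕜 μ hκ r ∘ₗ LinearMap.pi fun p =>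
    (μ.real (κ ⁻¹' {p}) ^ r.toReal⁻¹)⁻¹ • PiLp.projₗ r (fun _ : P => 𝕜) p

variable (μ r κ) in
/-- normalised cell integrals -/
noncomputable def TT : Lp 𝕜 r μ →ₗ[𝕜] PiLp r (fun _ : P => 𝕜) :=
  (WithLp.linearEquiv r 𝕜 (P → 𝕜)).symm.toLinearMap ∘ₗ LinearMap.pi fun p =>
    (μ.real (κ ⁻¹' {p}) ^ (1 - r.toReal⁻¹))⁻¹ • Il 𝕜 μ r (κ ⁻¹' {p})

omit [Fintype P] [MeasurableSpace P] [DiscreteMeasurableSpace P] in
lemma TT_apply (h : Lp 𝕜 r μ) (p : P) : TT μ κ r h p =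
    (μ.real (κ ⁻¹' {p}) ^ (1 - r.toReal⁻¹))⁻¹ • Il 𝕜 μ r (κ ⁻¹' {p}) h := rfl

lemma SS_ae (hκ : Measurable κ) (x : PiLp r fun _ : P => 𝕜) : SS μ r hκ x =ᵐ[μ]
    fun ω => (μ.real (κ ⁻¹' {κ ω}) ^ r.toReal⁻¹)⁻¹ • x (κ ω) := St_ae (𝕜 := 𝕜) hκ r _

lemma Il_SS (hκ : Measurable κ) (x : PiLp r fun _ : P => 𝕜) (b : P) :
    Il 𝕜 μ r (κ ⁻¹' {b}) (SS μ r hκ x) =
      μ.real (κ ⁻¹' {b}) • (μ.real (κ ⁻¹' {b}) ^ r.toReal⁻¹)⁻¹ • x b := Il_St hκ r _ b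

lemma w_id {w : ℝ} (hw : 0 < w) (t : ℝ) : w * (w ^ t)⁻¹ * (w ^ (1 - t))⁻¹ = 1 := by
  rw [mul_assoc, ← mul_inv, ← Real.rpow_add hw, add_sub_cancel, Real.rpow_one,
    mul_inv_cancel₀ hw.ne']

lemma TT_SS (hκ : Measurable κ) (h0 : ∀ p, μ.real (κ ⁻¹' {p}) ≠ 0) (x : PiLp r fun _ : P => 𝕜) :
    TT μ κ r (SS μ r hκ x) = x := by
  ext p
  rw [TT_apply, Il_SS, smul_smul, smul_smul, mul_rotate,
    w_id (measureReal_nonneg.lt_of_ne' (h0 p)), one_smul]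

lemma Il_SS_TT (hκ : Measurable κ) (h : Lp 𝕜 r μ) (S : Set P) :
    Il 𝕜 μ r (κ ⁻¹' S) (SS μ r hκ (TT μ κ r h)) = Il 𝕜 μ r (κ ⁻¹' S) h := by
  classical
  rw [Il_sum hκ, Il_sum hκ]
  refine sum_congr rfl fun b _ => ?_
  by_cases h0 : μ.real (κ ⁻¹' {b}) = 0
  · rw [Il_zero h0, Il_zero h0]
  · rw [Il_SS, TT_apply, smul_smul, smul_smul, w_id (measureReal_nonneg.lt_of_ne' h0), one_smul]

omit [MeasurableSpace P] [DiscreteMeasurableSpace P] in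
lemma pi_enorm (hr : r ≠ ⊤) (x : PiLp r fun _ : P => 𝕜) :
    ‖x‖ₑ = (∑ p, ‖x p‖ₑ ^ r.toReal) ^ (1 / r.toReal) := by
  rw [enorm_eq_nnnorm, PiLp.nnnorm_eq_sum hr, ENNReal.coe_rpow_of_nonneg _ (by positivity),
    ENNReal.ofNNReal_finsetSum]
  simp only [ENNReal.coe_rpow_of_nonneg _ ENNReal.toReal_nonneg, enorm_eq_nnnorm]

lemma SS_le (hr : r ≠ ⊤) (hκ : Measurable κ) (x : PiLp r fun _ : P => 𝕜) :
    ‖SS μ r hκ x‖ ≤ ‖x‖ := by
  have q := q_pos hr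
  rw [← enorm_le_iff_norm_le, Lp.enorm_def, eLpNorm_congr_ae (SS_ae hκ x),
    eLpNorm_eq_lintegral_rpow_enorm_toReal (zero_lt_one.trans_le Fact.out).ne' hr, pi_enorm hr,
    ← lintegral_map (f := fun p => ‖(μ.real (κ ⁻¹' {p}) ^ r.toReal⁻¹)⁻¹ • x p‖ₑ ^ r.toReal)
      .of_discrete hκ, lintegral_fintype]
  gcongr with p
  rw [Measure.map_apply hκ .of_discrete, ← ofReal_measureReal, ← ofReal_norm, ← ofReal_norm,
    ENNReal.ofReal_rpow_of_nonneg (norm_nonneg _) q.le,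
    ENNReal.ofReal_rpow_of_nonneg (norm_nonneg _) q.le, ← ENNReal.ofReal_mul (by positivity),
    norm_smul, Real.norm_of_nonneg (by positivity), Real.mul_rpow (by positivity) (norm_nonneg _),
    Real.inv_rpow (by positivity), Real.rpow_inv_rpow measureReal_nonneg q.ne', mul_right_comm]
  exact ENNReal.ofReal_le_ofReal (mul_le_of_le_one_left (by positivity)
    (inv_mul_le_one_of_le₀ le_rfl (by positivity)))

lemma TT_le (hr : r ≠ ⊤) (hκ : Measurable κ) (h : Lp 𝕜 r μ) : ‖TT μ κ r h‖ ≤ ‖h‖ := by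
  have q := q_pos hr
  have r0 : r ≠ 0 := (zero_lt_one.trans_le Fact.out).ne'
  have q1 : r.toReal⁻¹ ≤ 1 := inv_le_one_of_one_le₀ (by
    simpa using ENNReal.toReal_mono hr (Fact.out : 1 ≤ r))
  rw [← enorm_le_iff_norm_le, Lp.enorm_def, eLpNorm_eq_lintegral_rpow_enorm_toReal r0 hr,
    pi_enorm hr]
  gcongr
  refine le_trans ?_ (setLIntegral_le_lintegral (⋃ p, κ ⁻¹' {p}) _)
  rw [lintegral_iUnion (fun _ => hκ .of_discrete)
    fun p q h => (Set.disjoint_singleton.2 h).preimage κ, tsum_fintype]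
  refine sum_le_sum fun p _ => ?_
  have h1 := eLpNorm_le_eLpNorm_mul_rpow_measure_univ (μ := μ.restrict (κ ⁻¹' {p}))
    (Fact.out : 1 ≤ r) (Lp.aestronglyMeasurable h).restrict
  rw [eLpNorm_one_eq_lintegral_enorm, eLpNorm_eq_lintegral_rpow_enorm_toReal r0 hr,
    Measure.restrict_apply_univ, ← ofReal_measureReal, ENNReal.toReal_one, div_one, one_div,
    ENNReal.ofReal_rpow_of_nonneg measureReal_nonneg (sub_nonneg.2 q1)] at h1
  rw [← ENNReal.le_rpow_inv_iff q, TT_apply, enorm_smul, Real.enorm_of_nonneg (by positivity)]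
  refine (mul_le_mul_right ((enorm_integral_le_lintegral_enorm _).trans h1) _).trans ?_
  rw [mul_left_comm, ← ENNReal.ofReal_mul (by positivity)]
  exact mul_le_of_le_one_right' (ENNReal.ofReal_le_one.2
    (inv_mul_le_one_of_le₀ le_rfl (by positivity)))

end part

variable {P : ℕ → Type} [∀ k, Fintype (P k)] [∀ k, MeasurableSpace (P k)]
  [∀ k, DiscreteMeasurableSpace (P k)] [∀ k, DecidableEq (P k)] {κ : ∀ k, Ω → P k}
  {π : ∀ k, P (k + 1) → P k}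

/-- the filtration generated by refining partitions -/
def filt (hκ : ∀ k, Measurable (κ k)) (hπ : ∀ k ω, κ k ω = π k (κ (k + 1) ω)) :
    Filtration ℕ m0 where
  seq k := MeasurableSpace.comap (κ k) inferInstance
  mono' := monotone_nat_of_le_succ fun k => by
    rintro _ ⟨S, -, rfl⟩
    exact ⟨π k ⁻¹' S, .of_discrete, by ext ω; simp [hπ k]⟩
  le' k := (hκ k).comap_le

lemma mart_real (hκ : ∀ k, Measurable (κ k)) (hπ : ∀ k ω, κ k ω = π k (κ (k + 1) ω))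
    (m : ∀ k, P k → ℝ) (h0 : ∀ k p, μ.real (κ k ⁻¹' {p}) = 0 → m k p = 0)
    (hm : ∀ k p, m k p = ∑ p' with π k p' = p, m (k + 1) p') {R : NNReal}
    (hR : ∀ k, eLpNorm (fun ω => (μ.real (κ k ⁻¹' {κ k ω}))⁻¹ • m k (κ k ω)) 1 μ ≤ R) :
    ∀ᵐ ω ∂μ, ∃ c, Tendsto (fun k => (μ.real (κ k ⁻¹' {κ k ω}))⁻¹ • m k (κ k ω)) atTop (𝓝 c) := by
  classical
  refine (martingale_of_setIntegral_eq_succ (𝒢 := filt hκ hπ) (fun k => ?_) (fun k => ?_)
    ?_).submartingale.exists_ae_tendsto_of_bdd hR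
  · exact (StronglyMeasurable.of_discrete (f := fun p => (μ.real (κ k ⁻¹' {p}))⁻¹ • m k p)
      ).comp_measurable (comap_measurable _)
  · exact memLp_one_iff_integrable.1
      (step_mem (hκ k) 1 fun p => (μ.real (κ k ⁻¹' {p}))⁻¹ • m k p)
  · rintro k _ ⟨S, -, rfl⟩
    rw [K3 (hκ k) _ (h0 k), show κ k ⁻¹' S = κ (k + 1) ⁻¹' (π k ⁻¹' S) by ext ω; simp [hπ k],
      K3 (hκ _) _ (h0 _), ← sum_fiberwise_of_maps_to (g := π k) (t := univ.filter (· ∈ S))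
        fun p hp => by simpa using hp]
    refine sum_congr rfl fun p hp => (hm k p).trans (sum_congr ?_ fun _ _ => rfl)
    ext p'
    simp only [mem_filter, mem_univ, true_and, Set.mem_preimage, iff_and_self] at hp ⊢
    rintro rfl; exact hp

lemma re_im {u : ℕ → 𝕜} {a b : ℝ} (h1 : Tendsto (fun k => RCLike.re (u k)) atTop (𝓝 a))
    (h2 : Tendsto (fun k => RCLike.im (u k)) atTop (𝓝 b)) :
    Tendsto u atTop (𝓝 (a + b * RCLike.I)) := by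
  have c := RCLike.continuous_ofReal (K := 𝕜)
  simpa [Function.comp_def] using
    ((c.tendsto a).comp h1).add (((c.tendsto b).comp h2).mul_const (RCLike.I : 𝕜))

lemma mart (hκ : ∀ k, Measurable (κ k)) (hπ : ∀ k ω, κ k ω = π k (κ (k + 1) ω))
    (m : ∀ k, P k → 𝕜) (h0 : ∀ k p, μ.real (κ k ⁻¹' {p}) = 0 → m k p = 0)
    (hm : ∀ k p, m k p = ∑ p' with π k p' = p, m (k + 1) p') {R : NNReal}
    (hR : ∀ k, eLpNorm (fun ω => (μ.real (κ k ⁻¹' {κ k ω}))⁻¹ • m k (κ k ω)) 1 μ ≤ R) :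
    ∀ᵐ ω ∂μ, ∃ c, Tendsto (fun k => (μ.real (κ k ⁻¹' {κ k ω}))⁻¹ • m k (κ k ω)) atTop (𝓝 c) := by
  have key : ∀ φ : 𝕜 →L[ℝ] ℝ, (∀ x, ‖φ x‖ ≤ ‖x‖) → ∀ᵐ ω ∂μ, ∃ c, Tendsto
      (fun k => φ ((μ.real (κ k ⁻¹' {κ k ω}))⁻¹ • m k (κ k ω))) atTop (𝓝 c) := by
    intro φ hφ
    simp only [map_smul]
    refine mart_real hκ hπ (fun k p => φ (m k p)) (fun k p h => by simp [h0 k p h])
      (fun k p => by rw [hm, map_sum]) fun k => (eLpNorm_mono fun ω => ?_).trans (hR k)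
    rw [← map_smul]; exact hφ _
  filter_upwards [key RCLike.reCLM RCLike.norm_re_le_norm, key RCLike.imCLM RCLike.norm_im_le_norm]
    with ω ⟨a, ha⟩ ⟨b, hb⟩
  exact ⟨_, re_im ha hb⟩

omit [∀ k, DecidableEq (P k)] in
lemma levy (hκ : ∀ k, Measurable (κ k)) (hπ : ∀ k ω, κ k ω = π k (κ (k + 1) ω))
    (hg : m0 ≤ ⨆ k, MeasurableSpace.comap (κ k) inferInstance) {h : Ω → 𝕜}
    (hh : Integrable h μ) : ∀ᵐ ω ∂μ, Tendsto
      (fun k => (μ.real (κ k ⁻¹' {κ k ω}))⁻¹ • ∫ x in κ k ⁻¹' {κ k ω}, h x ∂μ) atTop (𝓝 (h ω)) := by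
  classical
  have real : ∀ g : Ω → ℝ, Integrable g μ → ∀ᵐ ω ∂μ, Tendsto
      (fun k => (μ.real (κ k ⁻¹' {κ k ω}))⁻¹ • ∫ x in κ k ⁻¹' {κ k ω}, g x ∂μ) atTop (𝓝 (g ω)) := by
    intro g hi
    have e : ∀ k, (fun ω => (μ.real (κ k ⁻¹' {κ k ω}))⁻¹ • ∫ x in κ k ⁻¹' {κ k ω}, g x ∂μ) =ᵐ[μ]
        μ[g | filt hκ hπ k] := by
      intro k
      refine ae_eq_condExp_of_forall_setIntegral_eq ((filt hκ hπ).le k) hi (fun s _ _ => ?_) ?_ ?_
      · exact (memLp_one_iff_integrable.1 (step_mem (hκ k) 1 fun p =>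
          (μ.real (κ k ⁻¹' {p}))⁻¹ • ∫ x in κ k ⁻¹' {p}, g x ∂μ)).integrableOn
      · rintro _ ⟨S, -, rfl⟩ -
        rw [K3 (hκ k) (fun p => ∫ x in κ k ⁻¹' {p}, g x ∂μ) fun p h => setIntegral_measure_zero _
          ((measureReal_eq_zero_iff (measure_ne_top _ _)).1 h), K1 (hκ k) hi]
      · exact ((StronglyMeasurable.of_discrete (f := fun p => (μ.real (κ k ⁻¹' {p}))⁻¹ •
          ∫ x in κ k ⁻¹' {p}, g x ∂μ)).comp_measurable (comap_measurable _)).aestronglyMeasurable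
    have e2 : (⨆ k, filt hκ hπ k) = m0 := le_antisymm (iSup_le (filt hκ hπ).le) hg
    have := tendsto_ae_condExp (μ := μ) (ℱ := filt hκ hπ) g
    rw [e2] at this
    filter_upwards [this, ae_all_iff.2 e, condExp_of_aestronglyMeasurable' le_rfl hi.1 hi]
      with ω h1 h2 h3
    rw [← h3]
    exact h1.congr fun k => (h2 k).symm
  filter_upwards [real _ hh.re, real _ hh.im] with ω h1 h2
  rw [← RCLike.re_add_im (h ω)]
  refine re_im (h1.congr fun k => ?_) (h2.congr fun k => ?_)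
  · rw [integral_re hh.integrableOn, RCLike.smul_re, smul_eq_mul]
  · rw [integral_im hh.integrableOn, RCLike.smul_im, smul_eq_mul]

end Pool.Agent.H.MP_cd69b0_an
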