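import Mathlib
import Pool.Agent.H.MP_cd69b0_an.Cell

set_option autoImplicit false

open Finset Function MeasureTheory Filter Topology
open scoped ENNReal

namespace Pool.Agent.H.MP_cd69b0_an

variable {𝕜 : Type} [RCLike 𝕜] {Ω : Type} [m0 : MeasurableSpace Ω] {μ : Measure Ω}
  [IsProbabilityMeasure μ] {r : ℝ≥0∞} [Fact (1 ≤ r)]

lemma Il_le {F : Type} [NormedAddCommGroup F] [NormedSpace 𝕜 F] [NormedSpace ℝ F]
    [SMulCommClass ℝ 𝕜 F] (p : ℝ≥0∞) [Fact (1 ≤ p)] (s : Set Ω) (f : Lp F p μ) :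
    ‖Il 𝕜 μ p s f‖ ≤ ‖f‖ := by
  rw [← enorm_le_iff_norm_le, Lp.enorm_def]
  refine (enorm_integral_le_lintegral_enorm _).trans ((setLIntegral_le_lintegral _ _).trans ?_)
  rw [← eLpNorm_one_eq_lintegral_enorm]
  exact eLpNorm_le_eLpNorm_of_exponent_le Fact.out (Lp.aestronglyMeasurable f)

lemma fac_YX (hr : r ≠ ⊤) {ν : Ω → ℕ} (hν : Measurable ν) (h0 : ∀ n, μ.real (ν ⁻¹' {n}) ≠ 0) :
    Fac 𝕜 (Y 𝕜 r) (Lp (Lp 𝕜 r μ) ∞ μ) := by
  obtain ⟨κ, hκ, h1⟩ : ∃ κ : ∀ n, Ω → Fin (n + 1), (∀ n, Measurable (κ n)) ∧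
      ∀ n p, μ.real (κ n ⁻¹' {p}) ≠ 0 := by
    refine ⟨fun n ω => ⟨min (ν ω) n, by omega⟩, fun n => (Measurable.of_discrete
      (f := fun k : ℕ => (⟨min k n, by omega⟩ : Fin (n + 1)))).comp hν, fun n p h => h0 p ?_⟩
    refine le_antisymm (le_trans (measureReal_mono fun ω hω => ?_) h.le) measureReal_nonneg
    have : ν ω = p := hω
    exact Fin.ext (by have := p.2; simp only; omega)
  have bd : ∀ (y : Y 𝕜 r) n, ‖SS μ r (hκ n) (y n)‖ ≤ ‖y‖ := fun y n =>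
    (SS_le hr _ _).trans (ev_le y n)
  have mem : ∀ y : Y 𝕜 r, MemLp (fun t => SS μ r (hκ (ν t)) (y (ν t))) ∞ μ := fun y =>
    memLp_top_of_bound ((StronglyMeasurable.of_discrete (f := fun n => SS μ r (hκ n) (y n))
      ).comp_measurable hν).aestronglyMeasurable ‖y‖ (Eventually.of_forall fun t => bd y _)
  refine ⟨LinearMap.mkContinuous
    { toFun := fun y => (mem y).toLp
      map_add' := fun y z => by
        rw [← MemLp.toLp_add]; congr 1; ext1 t; simp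
      map_smul' := fun c y => by
        rw [RingHom.id_apply, ← MemLp.toLp_const_smul]; congr 1; ext1 t; simp } 1 fun y => ?_,
    mkL (fun n => TT μ (κ n) r ∘ₗ ((μ.real (ν ⁻¹' {n}))⁻¹ • Il 𝕜 μ ∞ (ν ⁻¹' {n}))) 1 zero_le_one
      fun n f => ?_, fun y => lp.ext (funext fun n => ?_)⟩
  · rw [one_mul]
    exact top_le _ (norm_nonneg _) ((mem y).coeFn_toLp.mono fun t ht => ht ▸ bd y _)
  · rw [one_mul]; exact (TT_le hr (hκ n) _).trans (avg_le f _)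
  · change TT μ (κ n) r ((μ.real (ν ⁻¹' {n}))⁻¹ • ∫ ω in ν ⁻¹' {n}, (mem y).toLp _ ω ∂μ) = _
    rw [integral_congr_ae (ae_restrict_of_ae (mem y).coeFn_toLp),
      K2 hν fun n => SS μ r (hκ n) (y n), inv_smul_smul₀ (h0 n), TT_SS _ (h1 n)]

lemma curry [MeasurableSpace.CountablyGenerated Ω] (hr : r ≠ ⊤) {f : Ω × Ω → 𝕜}
    (hf : Measurable f) {C : ℝ} (hC : 0 ≤ C)
    (h : ∀ᵐ t ∂μ, eLpNorm (fun s => f (t, s)) r μ ≤ ENNReal.ofReal C) :
    ∃ g : Lp (Lp 𝕜 r μ) ∞ μ, ‖g‖ ≤ C ∧ ∀ᵐ t ∂μ, g t =ᵐ[μ] fun s => f (t, s) := by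
  classical
  have : Fact (r ≠ ⊤) := ⟨hr⟩
  have r0 : r ≠ 0 := (zero_lt_one.trans_le Fact.out).ne'
  have m1 : ∀ u : Ω × Ω → 𝕜, Measurable u →
      Measurable fun t => eLpNorm (fun s => u (t, s)) r μ := fun u hu => by
    simp only [eLpNorm_eq_lintegral_rpow_enorm_toReal r0 hr]
    exact (Measurable.lintegral_prod_right' (f := fun p => ‖u p‖ₑ ^ r.toReal)
      (hu.enorm.pow_const _)).pow_const _
  have m2 : ∀ t, AEStronglyMeasurable (fun s => f (t, s)) μ := fun t =>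
    (hf.comp measurable_prodMk_left).aestronglyMeasurable
  let Φ : Ω → Lp 𝕜 r μ := fun t => if h : eLpNorm (fun s => f (t, s)) r μ < ⊤ then
    MemLp.toLp _ ⟨m2 t, h⟩ else 0
  have e : ∀ t, eLpNorm (fun s => f (t, s)) r μ < ⊤ → Φ t =ᵐ[μ] fun s => f (t, s) := fun t ht => by
    simp only [Φ, dif_pos ht]; exact MemLp.coeFn_toLp _
  borelize ↥(Lp 𝕜 r μ)
  have m3 : ∀ x, Measurable fun t => edist (Φ t) x := by
    intro x
    have : (fun t => edist (Φ t) x) = fun t => if eLpNorm (fun s => f (t, s)) r μ < ⊤ then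
        eLpNorm (fun s => f (t, s) - x s) r μ else edist 0 x := by
      ext t
      split_ifs with ht
      · rw [Lp.edist_def]
        exact eLpNorm_congr_ae ((e t ht).mono fun s hs => by simp [hs])
      · simp only [Φ, dif_neg ht]
    rw [this]
    exact Measurable.ite (measurableSet_lt (m1 f hf) measurable_const)
      (m1 (fun p => f p - x p.2) (hf.sub ((Lp.stronglyMeasurable x).measurable.comp
        measurable_snd))) measurable_const
  have m4 : Measurable Φ := by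
    refine measurable_of_isOpen fun U hU => ?_
    choose! ε ε0 hε using EMetric.isOpen_iff.1 hU
    obtain ⟨T, hT, hc, e⟩ := TopologicalSpace.countable_cover_nhdsWithin (s := U)
      (f := fun x => Metric.eball x (ε x)) fun x hx =>
        mem_nhdsWithin_of_mem_nhds (Metric.eball_mem_nhds _ (ε0 x hx))
    rw [Set.Subset.antisymm e (Set.iUnion₂_subset fun x hx => hε x (hT hx)), Set.preimage_iUnion₂]
    exact MeasurableSet.biUnion hc fun x _ => measurableSet_lt (m3 x) measurable_const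
  have b : ∀ᵐ t ∂μ, ‖Φ t‖ ≤ C := h.mono fun t ht => by
    rw [Lp.norm_def, eLpNorm_congr_ae (e t (ht.trans_lt ENNReal.ofReal_lt_top))]
    exact ENNReal.toReal_le_of_le_ofReal hC ht
  have mem : MemLp Φ ∞ μ := memLp_top_of_bound m4.aestronglyMeasurable C b
  refine ⟨mem.toLp, top_le _ hC ?_, ?_⟩
  · filter_upwards [mem.coeFn_toLp, b] with t h1 h2
    rwa [h1]
  · filter_upwards [mem.coeFn_toLp, h] with t h1 h2
    rw [h1]
    exact e t (h2.trans_lt ENNReal.ofReal_lt_top)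

variable {P : ℕ → Type} [∀ k, Fintype (P k)] [∀ k, MeasurableSpace (P k)]
  [∀ k, DiscreteMeasurableSpace (P k)] [∀ k, DecidableEq (P k)] {κ : ∀ k, Ω → P k}
  {π : ∀ k, P (k + 1) → P k}

lemma rep [MeasurableSpace.CountablyGenerated Ω] (hr : r ≠ ⊤) (hκ : ∀ k, Measurable (κ k))
    (hπ : ∀ k ω, κ k ω = π k (κ (k + 1) ω)) (G : ℕ → Lp (Lp 𝕜 r μ) ∞ μ) {C : ℝ}
    (hG : ∀ n, ‖G n‖ ≤ C) {U : Filter ℕ} [U.NeBot] (m : Set Ω → Set Ω → 𝕜)
    (hm : ∀ s s', Tendsto (fun n => Il 𝕜 μ r s' (Il 𝕜 μ ∞ s (G n))) U (𝓝 (m s s'))) :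
    ∃ f : Lp (Lp 𝕜 r μ) ∞ μ, ‖f‖ ≤ C ∧ ∀ᵐ t ∂μ, ∃ ψ : ∀ l, P l → 𝕜,
      (∀ l b, Tendsto (fun k => (μ.real (κ k ⁻¹' {κ k t}))⁻¹ •
        m (κ k ⁻¹' {κ k t}) (κ l ⁻¹' {b})) atTop (𝓝 (ψ l b))) ∧
      ∀ᵐ s ∂μ, Tendsto (fun l => (μ.real (κ l ⁻¹' {κ l s}))⁻¹ • ψ l (κ l s)) atTop (𝓝 (f t s)) := by
  classical
  have C0 : 0 ≤ C := (norm_nonneg _).trans (hG 0)
  have cell : ∀ k a, κ k ⁻¹' {a} = κ (k + 1) ⁻¹' {a' | π k a' = a} := fun k a => by
    ext ω; simp [hπ k]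
  have a1 : ∀ k a s', m (κ k ⁻¹' {a}) s' = ∑ a' with π k a' = a, m (κ (k + 1) ⁻¹' {a'}) s' := by
    intro k a s'
    refine tendsto_nhds_unique (hm _ _) ((tendsto_finsetSum _ fun a' _ => hm _ _).congr fun n => ?_)
    rw [cell, Il_sum (hκ _), map_sum]; rfl
  have a2 : ∀ k b s, m s (κ k ⁻¹' {b}) = ∑ b' with π k b' = b, m s (κ (k + 1) ⁻¹' {b'}) := by
    intro k a s'
    refine tendsto_nhds_unique (hm _ _) ((tendsto_finsetSum _ fun a' _ => hm _ _).congr fun n => ?_)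
    rw [cell, Il_sum (hκ _)]; rfl
  have z1 : ∀ s s', μ.real s = 0 → m s s' = 0 := fun s s' h =>
    tendsto_nhds_unique (hm _ _) (by simp only [Il_zero h, map_zero]; exact tendsto_const_nhds)
  have z2 : ∀ s s', μ.real s' = 0 → m s s' = 0 := fun s s' h =>
    tendsto_nhds_unique (hm _ _) (by simp only [Il_zero h]; exact tendsto_const_nhds)
  have b1 : ∀ s s', ‖(μ.real s)⁻¹ • m s s'‖ ≤ C := fun s s' =>
    le_of_tendsto' ((hm s s').const_smul (μ.real s)⁻¹).norm fun n => by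
      rw [← LinearMap.map_smul_of_tower]
      exact (Il_le _ _ _).trans ((avg_le _ _).trans (hG n))
  have b2 : ∀ s l, ‖WithLp.toLp r fun b : P l => (μ.real (κ l ⁻¹' {b}) ^ (1 - r.toReal⁻¹))⁻¹ •
      (μ.real s)⁻¹ • m s (κ l ⁻¹' {b})‖ ≤ C := fun s l =>
    le_of_tendsto' (((PiLp.continuous_toLp r _).tendsto _).comp (tendsto_pi_nhds.2 fun b =>
      ((hm s _).const_smul _).const_smul _)).norm fun n => by
      refine le_trans (le_of_eq ?_) ((TT_le hr (hκ l) _).trans ((avg_le (𝕜 := 𝕜) _ s).trans (hG n)))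
      congr 1
      ext b
      rw [TT_apply, LinearMap.map_smul_of_tower]
      rfl
  have s1 : ∀ᵐ t ∂μ, ∀ l b, ∃ c, Tendsto (fun k => (μ.real (κ k ⁻¹' {κ k t}))⁻¹ •
      m (κ k ⁻¹' {κ k t}) (κ l ⁻¹' {b})) atTop (𝓝 c) :=
    ae_all_iff.2 fun l => ae_all_iff.2 fun b => mart hκ hπ
      (fun k a => m (κ k ⁻¹' {a}) (κ l ⁻¹' {b})) (fun k a h => z1 _ _ h) (fun k a => a1 k a _)
      (R := C.toNNReal) fun k => by
        refine (eLpNorm_le_of_ae_bound (p := 1) (μ := μ) (Eventually.of_forall fun t =>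
          b1 (κ k ⁻¹' {κ k t}) (κ l ⁻¹' {b}))).trans_eq ?_
        rw [measure_univ, ENNReal.one_rpow, one_mul]; rfl
  obtain ⟨φ, mφ, hφ⟩ : ∃ φ : ∀ l, P l → Ω → 𝕜, (∀ l b, Measurable (φ l b)) ∧
      ∀ᵐ t ∂μ, ∀ l b, Tendsto (fun k => (μ.real (κ k ⁻¹' {κ k t}))⁻¹ •
        m (κ k ⁻¹' {κ k t}) (κ l ⁻¹' {b})) atTop (𝓝 (φ l b t)) :=
    ⟨fun l b t => limUnder atTop _, fun l b => (StronglyMeasurable.limUnder fun k =>
      (StronglyMeasurable.of_discrete (f := fun a => (μ.real (κ k ⁻¹' {a}))⁻¹ •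
        m (κ k ⁻¹' {a}) (κ l ⁻¹' {b}))).comp_measurable (hκ k)).measurable,
      s1.mono fun t ht l b => tendsto_nhds_limUnder (ht l b)⟩
  have mM : ∀ l, Measurable fun p : Ω × Ω =>
      (μ.real (κ l ⁻¹' {κ l p.2}))⁻¹ • φ l (κ l p.2) p.1 := fun l =>
    (measurable_from_prod_countable_left (f := fun p : Ω × P l =>
      (μ.real (κ l ⁻¹' {p.2}))⁻¹ • φ l p.2 p.1) fun b => (mφ l b).fun_const_smul (μ.real (κ l ⁻¹' {b}))⁻¹).comp
      (measurable_fst.prodMk ((hκ l).comp measurable_snd))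
  have s2 : ∀ᵐ t ∂μ, (∀ l, eLpNorm (fun s => (μ.real (κ l ⁻¹' {κ l s}))⁻¹ • φ l (κ l s) t) r μ ≤
      ENNReal.ofReal C) ∧ ∀ᵐ s ∂μ, ∃ c, Tendsto
        (fun l => (μ.real (κ l ⁻¹' {κ l s}))⁻¹ • φ l (κ l s) t) atTop (𝓝 c) := by
    filter_upwards [hφ] with t ht
    have z : ∀ l b, μ.real (κ l ⁻¹' {b}) = 0 → φ l b t = 0 := fun l b h =>
      tendsto_nhds_unique (ht l b) (by simp only [z2 _ _ h, smul_zero]; exact tendsto_const_nhds)
    have b : ∀ l, eLpNorm (fun s => (μ.real (κ l ⁻¹' {κ l s}))⁻¹ • φ l (κ l s) t) r μ ≤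
        ENNReal.ofReal C := by
      intro l
      have c1 : ‖WithLp.toLp r fun b : P l => (μ.real (κ l ⁻¹' {b}) ^ (1 - r.toReal⁻¹))⁻¹ •
          φ l b t‖ ≤ C := le_of_tendsto' (((PiLp.continuous_toLp r _).tendsto _).comp
            (tendsto_pi_nhds.2 fun b => (ht l b).const_smul _)).norm fun k => b2 _ l
      have c2 := (SS_le (μ := μ) hr (hκ l) _).trans c1
      rw [← ENNReal.ofReal_le_ofReal_iff C0, ofReal_norm, Lp.enorm_def,
        eLpNorm_congr_ae (SS_ae _ _)] at c2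
      refine le_trans (le_of_eq ?_) c2
      congr 1
      ext s
      by_cases h0 : μ.real (κ l ⁻¹' {κ l s}) = 0
      · simp [z _ _ h0]
      · rw [smul_smul]
        congr 1
        have := w_id (measureReal_nonneg.lt_of_ne' h0) r.toReal⁻¹
        rw [mul_assoc] at this
        exact (eq_inv_of_mul_eq_one_right this).symm
    refine ⟨b, mart hκ hπ (fun l b => φ l b t) z (fun l b => ?_) (R := C.toNNReal) fun l =>
      (eLpNorm_le_eLpNorm_of_exponent_le Fact.out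
        ((mM l).comp measurable_prodMk_left).aestronglyMeasurable).trans (b l)⟩
    refine tendsto_nhds_unique (ht l b) ((tendsto_finsetSum _ fun b' _ => ht _ b').congr
      fun k => ?_)
    rw [a2, smul_sum]
  obtain ⟨f, f1, f2⟩ := curry (μ := μ) hr
    (StronglyMeasurable.limUnder (l := atTop) fun l => (mM l).stronglyMeasurable).measurable C0
    (s2.mono fun t ht => Lp.eLpNorm_le_of_ae_tendsto (Eventually.of_forall ht.1)
      (fun l => ((mM l).comp measurable_prodMk_left).aestronglyMeasurable)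
      (ht.2.mono fun s hs => tendsto_nhds_limUnder hs))
  refine ⟨f, f1, ?_⟩
  filter_upwards [f2, hφ, s2] with t h1 h2 h3
  refine ⟨_, h2, ?_⟩
  filter_upwards [h1, h3.2] with s h4 h5
  rw [h4]
  exact tendsto_nhds_limUnder h5

lemma fac_XV [MeasurableSpace.CountablyGenerated Ω] (hr : r ≠ ⊤) (hκ : ∀ k, Measurable (κ k))
    (hπ : ∀ k ω, κ k ω = π k (κ (k + 1) ω))
    (hg : m0 ≤ ⨆ k, MeasurableSpace.comap (κ k) inferInstance) :
    Fac 𝕜 (Lp (Lp 𝕜 r μ) ∞ μ) (lp (fun i : Σ k, P k => PiLp r fun _ : P i.1 => 𝕜) ∞) := by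
  classical
  let G : ℕ → lp (fun i : Σ k, P k => PiLp r fun _ : P i.1 => 𝕜) ∞ →ₗ[𝕜] Lp (Lp 𝕜 r μ) ∞ μ :=
    fun n => St 𝕜 μ (hκ n) ∞ ∘ₗ LinearMap.pi fun a => SS μ r (hκ n) ∘ₗ
      lp.evalₗ (fun i : Σ k, P k => PiLp r fun _ : P i.1 => 𝕜) ∞ ⟨n, a⟩
  have hG : ∀ g n, ‖G n g‖ ≤ ‖g‖ := fun g n => top_le _ (norm_nonneg _)
    ((St_ae (𝕜 := 𝕜) (hκ n) ∞ _).mono fun t ht => ht ▸ (SS_le hr (hκ n) _).trans (ev_le g _))
  have ex : ∀ g s s', ∃ c, Tendsto (fun n => Il 𝕜 μ r s' (Il 𝕜 μ ∞ s (G n g)))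
      (hyperfilter ℕ) (𝓝 c) := fun g s s' => by
    obtain ⟨c, -, hc⟩ := (isCompact_closedBall (0 : 𝕜) ‖g‖).ultrafilter_le_nhds
      ((hyperfilter ℕ).map fun n => Il 𝕜 μ r s' (Il 𝕜 μ ∞ s (G n g)))
      (le_principal_iff.2 (mem_map.2 (univ_mem' fun n => mem_closedBall_zero_iff.2
        ((Il_le _ _ _).trans ((Il_le _ _ _).trans (hG g n))))))
    exact ⟨c, hc⟩
  choose m hm using ex
  choose R R1 R2 using fun g => rep hr hκ hπ (G · g) (hG g) (m g) (hm g)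
  have uq : ∀ g (f : Lp (Lp 𝕜 r μ) ∞ μ), (∀ᵐ t ∂μ, ∃ ψ : ∀ l, P l → 𝕜,
      (∀ l b, Tendsto (fun k => (μ.real (κ k ⁻¹' {κ k t}))⁻¹ •
        m g (κ k ⁻¹' {κ k t}) (κ l ⁻¹' {b})) atTop (𝓝 (ψ l b))) ∧
      ∀ᵐ s ∂μ, Tendsto (fun l => (μ.real (κ l ⁻¹' {κ l s}))⁻¹ • ψ l (κ l s)) atTop (𝓝 (f t s))) →
      R g = f := by
    intro g f h
    refine Lp.ext ?_
    filter_upwards [R2 g, h] with t ⟨ψ, h1, h2⟩ ⟨ψ', h1', h2'⟩
    obtain rfl : ψ = ψ' := funext fun l => funext fun b => tendsto_nhds_unique (h1 l b) (h1' l b)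
    refine Lp.ext ?_
    filter_upwards [h2, h2'] with s h3 h3' using tendsto_nhds_unique h3 h3'
  refine ⟨mkL (fun i => TT μ (κ i.1) r ∘ₗ ((μ.real (κ i.1 ⁻¹' {i.2}))⁻¹ •
      Il 𝕜 μ ∞ (κ i.1 ⁻¹' {i.2}))) 1 zero_le_one fun i f => ?_,
    LinearMap.mkContinuous
      { toFun := R
        map_add' := fun g g' => uq _ _ ?_
        map_smul' := fun c g => uq _ _ ?_ } 1 fun g => by simpa using R1 g, fun f => uq _ _ ?_⟩
  · rw [one_mul]; exact (TT_le hr (hκ _) _).trans (avg_le f _)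
  · have e : ∀ s s', m (g + g') s s' = m g s s' + m g' s s' := fun s s' =>
      tendsto_nhds_unique (hm _ _ _) (by simpa only [map_add] using (hm g s s').add (hm g' s s'))
    filter_upwards [R2 g, R2 g', Lp.coeFn_add (R g) (R g')] with t ⟨ψ, h1, h2⟩ ⟨ψ', h1', h2'⟩ h
    refine ⟨fun l b => ψ l b + ψ' l b, fun l b => ?_, ?_⟩
    · simpa only [e, smul_add] using (h1 l b).add (h1' l b)
    · filter_upwards [h2, h2', Lp.coeFn_add (R g t) (R g' t)] with s h3 h3' h4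
      rw [h, Pi.add_apply, h4]
      simpa only [smul_add, Pi.add_apply] using h3.add h3'
  · have e : ∀ s s', m (c • g) s s' = c • m g s s' := fun s s' =>
      tendsto_nhds_unique (hm _ _ _) (by simpa only [map_smul] using (hm g s s').const_smul c)
    filter_upwards [R2 g, Lp.coeFn_smul c (R g)] with t ⟨ψ, h1, h2⟩ h
    refine ⟨fun l b => c • ψ l b, fun l b => ?_, ?_⟩
    · simpa only [e, smul_comm c] using (h1 l b).const_smul c
    · filter_upwards [h2, Lp.coeFn_smul c (R g t)] with s h3 h4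
      rw [RingHom.id_apply, h, Pi.smul_apply, h4]
      simpa only [smul_comm c, Pi.smul_apply] using h3.const_smul c
  · generalize hJ : mkL (𝕜 := 𝕜) (E := fun i : Σ k, P k => PiLp r fun _ : P i.1 => 𝕜)
      _ 1 _ _ f = g
    have hg' : ∀ n a, g ⟨n, a⟩ = TT μ (κ n) r ((μ.real (κ n ⁻¹' {a}))⁻¹ •
        Il 𝕜 μ ∞ (κ n ⁻¹' {a}) f) := fun n a => hJ ▸ rfl
    have e : ∀ k a l b, m g (κ k ⁻¹' {a}) (κ l ⁻¹' {b}) =
        Il 𝕜 μ r (κ l ⁻¹' {b}) (Il 𝕜 μ ∞ (κ k ⁻¹' {a}) f) := by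
      intro k a l b
      refine tendsto_nhds_unique (hm _ _ _) (tendsto_const_nhds.congr' ?_)
      filter_upwards [Nat.hyperfilter_le_atTop (eventually_ge_atTop k),
        Nat.hyperfilter_le_atTop (eventually_ge_atTop l)] with n h1 h2
      obtain ⟨S, -, hS⟩ := (filt hκ hπ).mono h1 (κ k ⁻¹' {a}) ⟨{a}, .of_discrete, rfl⟩
      obtain ⟨S', -, hS'⟩ := (filt hκ hπ).mono h2 (κ l ⁻¹' {b}) ⟨{b}, .of_discrete, rfl⟩
      rw [← hS, ← hS', Il_sum (hκ n) ∞ f, Il_sum (hκ n) ∞ (G n g), map_sum, map_sum]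
      refine sum_congr rfl fun a' _ => ?_
      rw [show Il 𝕜 μ ∞ (κ n ⁻¹' {a'}) (G n g) = μ.real (κ n ⁻¹' {a'}) • SS μ r (hκ n) (g ⟨n, a'⟩)
        from Il_St (hκ n) ∞ _ a', hg', LinearMap.map_smul_of_tower, Il_SS_TT,
        LinearMap.map_smul_of_tower]
      by_cases h0 : μ.real (κ n ⁻¹' {a'}) = 0
      · simp [Il_zero h0]
      · rw [smul_inv_smul₀ h0]
    have fi := (Lp.memLp f).integrable le_top
    have s1 : ∀ᵐ t ∂μ, ∀ l b, Tendsto (fun k => (μ.real (κ k ⁻¹' {κ k t}))⁻¹ •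
        m g (κ k ⁻¹' {κ k t}) (κ l ⁻¹' {b})) atTop (𝓝 (Il 𝕜 μ r (κ l ⁻¹' {b}) (f t))) := by
      refine ae_all_iff.2 fun l => ae_all_iff.2 fun b => ?_
      let L : Lp 𝕜 r μ →L[𝕜] 𝕜 := (Il 𝕜 μ r (κ l ⁻¹' {b})).mkContinuous 1
        fun h => by simpa using Il_le _ _ h
      filter_upwards [levy hκ hπ hg (L.integrable_comp fi)] with t ht
      refine ht.congr fun k => ?_
      rw [e, L.integral_comp_comm fi.integrableOn]
      rfl
    filter_upwards [s1] with t ht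
    exact ⟨_, ht, levy hκ hπ hg ((Lp.memLp (f t)).integrable Fact.out)⟩

lemma main [MeasurableSpace.CountablyGenerated Ω] (hr : r ≠ ⊤) {ν : Ω → ℕ} (hν : Measurable ν)
    (h0 : ∀ n, μ.real (ν ⁻¹' {n}) ≠ 0) : Nonempty (Lp (Lp 𝕜 r μ) ∞ μ ≃L[𝕜] Y 𝕜 r) := by
  classical
  have hA := MeasurableSpace.measurableSet_natGeneratingSequence (α := Ω)
  refine pel ((fac_XV (P := fun k => Fin k → Bool) (π := fun k => Fin.init)
    (κ := fun k ω i => decide (ω ∈ MeasurableSpace.natGeneratingSequence Ω i)) hr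
    (fun k => measurable_pi_lambda _ fun i => ?_) (fun k ω => rfl) ?_).trans (fac_Y hr _))
    (fac_YX hr hν h0) (fac_YY hr)
  · refine measurable_to_bool ?_
    convert hA i using 1
    ext ω; simp
  · refine (MeasurableSpace.generateFrom_natGeneratingSequence Ω).ge.trans
      (MeasurableSpace.generateFrom_le ?_)
    rintro _ ⟨n, rfl⟩
    refine le_iSup (fun k => MeasurableSpace.comap (fun ω (i : Fin k) =>
      decide (ω ∈ MeasurableSpace.natGeneratingSequence Ω i)) inferInstance) (n + 1) _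
      ⟨{x | x (Fin.last n) = true}, .of_discrete, ?_⟩
    ext ω; simp

end Pool.Agent.H.MP_cd69b0_an
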